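import Mathlib
import Pool.Agent.Helper18.RL.Goals

set_option autoImplicit false
set_option linter.unusedSectionVars false

/-!
RL-TRI: graphs with a triangle, without cut vertices and without long odd cycles.
-/

namespace Pool.Agent.Helper12.RL

open Finset Pool.Agent.Helper37.RG3 Pool.Agent.Helper18.RL

theorem con_insert {V : Type} [Fintype V] [DecidableEq V] {R : V → V → Prop} {K : Finset V}
    (hs : ∀ x y, R x y → R y x) (hK : Con R K) {x y : V} (hx : x ∈ K) (hxy : R x y) :
    Con R (insert y K) := by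
  refine ⟨⟨y, mem_insert_self _ _⟩, ?_⟩
  intro P hP hne hPne
  by_cases hyK : y ∈ K
  · rw [insert_eq_of_mem hyK] at hP hPne ⊢
    exact hK.2 P hP hne hPne
  by_cases hyP : y ∈ P
  · by_cases hne' : (P.erase y).Nonempty
    · obtain ⟨p, hp, q, hq, hpq⟩ := hK.2 (P.erase y) (by
        intro z hz
        rw [mem_erase] at hz
        have := hP hz.2
        rw [mem_insert] at this
        exact this.resolve_left hz.1) hne' (by
        intro h
        apply hPne
        rw [← h, insert_erase hyP])
      rw [mem_erase] at hp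
      rw [mem_sdiff, mem_erase] at hq
      refine ⟨p, hp.2, q, ?_, hpq⟩
      rw [mem_sdiff, mem_insert]
      refine ⟨Or.inr hq.1, fun h => hq.2 ⟨?_, h⟩⟩
      rintro rfl
      exact hyK hq.1
    · rw [not_nonempty_iff_eq_empty] at hne'
      refine ⟨y, hyP, x, ?_, hs _ _ hxy⟩
      rw [mem_sdiff, mem_insert]
      refine ⟨Or.inr hx, fun h => ?_⟩
      have h1 : x ∈ P.erase y := by
        rw [mem_erase]
        refine ⟨?_, h⟩
        rintro rfl
        exact hyK hx
      rw [hne'] at h1
      simp at h1
  · have hPK : P ⊆ K := by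
      intro z hz
      have := hP hz
      rw [mem_insert] at this
      rcases this with rfl | h
      · exact absurd hz hyP
      · exact h
    by_cases hPe : P = K
    · subst hPe
      refine ⟨x, hx, y, ?_, hxy⟩
      rw [mem_sdiff]
      exact ⟨mem_insert_self _ _, hyP⟩
    · obtain ⟨p, hp, q, hq, hpq⟩ := hK.2 P hPK hne hPe
      rw [mem_sdiff] at hq
      refine ⟨p, hp, q, ?_, hpq⟩
      rw [mem_sdiff, mem_insert]
      exact ⟨Or.inr hq.1, hq.2⟩

/-- connected components -/
theorem exists_comp {V : Type} [Fintype V] [DecidableEq V] {R : V → V → Prop} {Y : Finset V}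
    (hs : ∀ x y, R x y → R y x) {k : V} (hk : k ∈ Y) :
    ∃ K, K ⊆ Y ∧ k ∈ K ∧ Con R K ∧ ∀ x ∈ K, ∀ y ∈ Y, y ∉ K → ¬ R x y := by
  classical
  obtain ⟨K, hK, hmax⟩ := Finset.exists_max_image
    (Y.powerset.filter fun K => k ∈ K ∧ Con R K) Finset.card
    ⟨{k}, by
      rw [mem_filter, mem_powerset, singleton_subset_iff]
      exact ⟨hk, mem_singleton_self _, Con.single R k⟩⟩
  rw [mem_filter, mem_powerset] at hK
  refine ⟨K, hK.1, hK.2.1, hK.2.2, ?_⟩
  intro x hx y hy hyK hxy
  have := hmax (insert y K) (by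
    rw [mem_filter, mem_powerset]
    exact ⟨insert_subset hy hK.1, mem_insert_of_mem hK.2.1, con_insert hs hK.2.2 hx hxy⟩)
  rw [card_insert_of_notMem hyK] at this
  omega

theorem gtri : G_TRI := by
  intro V _ _ R X a b c hs hi hLO hcut ha hb hc hab hbc hca h5
  classical
  have hne : ∀ {x y : V}, R x y → x ≠ y := by
    intro x y h e
    subst e
    exact hi _ h
  obtain ⟨D, hD⟩ : ∃ D : Finset V, D = {a, b, c} := ⟨_, rfl⟩
  have hmD : ∀ x, x ∈ D ↔ x = a ∨ x = b ∨ x = c := by
    intro x
    rw [hD]
    simp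
  have hDX : D ⊆ X := by
    intro x hx
    rcases (hmD x).mp hx with rfl | rfl | rfl <;> assumption
  have hDR : ∀ x ∈ D, ∀ y ∈ D, x ≠ y → R x y := by
    intro x hx y hy hxy
    rcases (hmD x).mp hx with rfl | rfl | rfl <;> rcases (hmD y).mp hy with rfl | rfl | rfl
    · exact absurd rfl hxy
    · exact hab
    · exact hs _ _ hca
    · exact hs _ _ hab
    · exact absurd rfl hxy
    · exact hbc
    · exact hca
    · exact hs _ _ hbc
    · exact absurd rfl hxy
  have hab' := hne hab
  have hbc' := hne hbc
  have hca' := hne hca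
  have hD3 : ∀ p ∈ D, ∀ q ∈ D, p ≠ q →
      ∃ s ∈ D, s ≠ p ∧ s ≠ q ∧ ∀ x ∈ D, x = p ∨ x = q ∨ x = s := by
    intro x hx y hy hxy
    rcases (hmD x).mp hx with rfl | rfl | rfl <;> rcases (hmD y).mp hy with rfl | rfl | rfl
    · exact absurd rfl hxy
    · exact ⟨c, (hmD c).mpr (by simp), hca', hbc'.symm, fun z hz => (hmD z).mp hz⟩
    · exact ⟨b, (hmD b).mpr (by simp), hab'.symm, hbc', fun z hz => by
        have := (hmD z).mp hz
        tauto⟩
    · exact ⟨c, (hmD c).mpr (by simp), hbc'.symm, hca', fun z hz => by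
        have := (hmD z).mp hz
        tauto⟩
    · exact absurd rfl hxy
    · exact ⟨a, (hmD a).mpr (by simp), hab', hca'.symm, fun z hz => by
        have := (hmD z).mp hz
        tauto⟩
    · exact ⟨b, (hmD b).mpr (by simp), hbc', hab'.symm, fun z hz => by
        have := (hmD z).mp hz
        tauto⟩
    · exact ⟨a, (hmD a).mpr (by simp), hca'.symm, hab', fun z hz => by
        have := (hmD z).mp hz
        tauto⟩
    · exact absurd rfl hxy
  -- closing an odd cycle through `D`
  have hmainLO : ∀ (S : Finset V) (p q k₁ k₂ : V), S ⊆ X \ D → p ∈ D → q ∈ D → p ≠ q →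
      Pth R S k₁ k₂ → R p k₁ → R q k₂ → k₁ = k₂ := by
    intro S p q k₁ k₂ hS hp hq hpq hP h1 h2
    by_contra hk
    have hSD : ∀ x ∈ D, x ∉ S := fun x hx hxS => (mem_sdiff.mp (hS hxS)).2 hx
    have hSX : S ⊆ X := fun x hx => (mem_sdiff.mp (hS hx)).1
    have hcS : 2 ≤ S.card := by
      have := card_le_card (show ({k₁, k₂} : Finset V) ⊆ S by
        intro z hz
        rw [mem_insert, mem_singleton] at hz
        rcases hz with rfl | rfl
        · exact hP.left_mem
        · exact hP.right_mem)
      rwa [card_pair hk] at this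
    obtain ⟨s, hsD, hsp, hsq, -⟩ := hD3 p hp q hq hpq
    have P1 : Pth R (insert p S) p k₂ := .cons h1 (hSD p hp) hP
    have hq1 : q ∉ insert p S := by
      rw [mem_insert]
      rintro (h | h)
      · exact hpq h.symm
      · exact hSD q hq h
    have P2 : Pth R (insert p S ∪ {q}) p q := P1.append (hs _ _ h2) (.one q) (by
      rw [disjoint_singleton_right]
      exact hq1)
    have c2 : (insert p S ∪ {q}).card = S.card + 2 := by
      rw [card_union_of_disjoint (by rw [disjoint_singleton_right]; exact hq1),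
        card_insert_of_notMem (hSD p hp), card_singleton]
    have hs1 : s ∉ insert p S ∪ {q} := by
      rw [mem_union, mem_insert, mem_singleton]
      rintro ((h | h) | h)
      · exact hsp h
      · exact hSD s hsD h
      · exact hsq h
    have P3 : Pth R (insert p S ∪ {q} ∪ {s}) p s := P2.append (hDR _ hq _ hsD hsq.symm)
      (.one s) (by
        rw [disjoint_singleton_right]
        exact hs1)
    have c3 : (insert p S ∪ {q} ∪ {s}).card = S.card + 3 := by
      rw [card_union_of_disjoint (by rw [disjoint_singleton_right]; exact hs1), c2,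
        card_singleton]
    have hX2 : insert p S ∪ {q} ⊆ X := by
      intro z hz
      rw [mem_union, mem_insert, mem_singleton] at hz
      rcases hz with (rfl | h) | rfl
      · exact hDX hp
      · exact hSX h
      · exact hDX hq
    rcases Nat.even_or_odd S.card with he | ho
    · refine hLO (insert p S ∪ {q} ∪ {s}) ?_ ⟨?_, ?_, p, s, P3, hDR _ hsD _ hp hsp⟩
      · intro z hz
        rw [mem_union, mem_singleton] at hz
        rcases hz with h | rfl
        · exact hX2 h
        · exact hDX hsD
      · rw [c3]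
        obtain ⟨m, hm⟩ := he
        exact ⟨m + 1, by omega⟩
      · omega
    · refine hLO (insert p S ∪ {q}) hX2 ⟨?_, ?_, p, q, P2, hDR _ hq _ hp hpq.symm⟩
      · rw [c2]
        obtain ⟨m, hm⟩ := ho
        exact ⟨m + 1, by omega⟩
      · obtain ⟨m, hm⟩ := ho
        omega
  -- every vertex outside `D` is isolated there and has two neighbours in `D`
  have hout : ∀ k ∈ X \ D, (∀ y ∈ X \ D, ¬ R k y) ∧
      ∃ p ∈ D, ∃ q ∈ D, p ≠ q ∧ R p k ∧ R q k := by
    intro k hk
    obtain ⟨K, hKY, hkK, hKc, hcl⟩ := exists_comp (R := R) (Y := X \ D) hs hk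
    have hKD : ∀ x ∈ K, x ∉ D := fun x hx => (mem_sdiff.mp (hKY hx)).2
    have hKX : K ⊆ X := fun x hx => (mem_sdiff.mp (hKY hx)).1
    -- two vertices of `D` have neighbours in `K`
    have step1 : ∀ p ∈ D, ∃ q ∈ D, q ≠ p ∧ ∃ x ∈ K, R q x := by
      intro p hp
      by_contra hcon
      push Not at hcon
      have hq : ∃ q ∈ D, q ≠ p := by
        by_cases h : p = a
        · exact ⟨b, (hmD b).mpr (by simp), by rw [h]; exact hab'.symm⟩
        · exact ⟨a, (hmD a).mpr (by simp), fun h' => h h'.symm⟩
      obtain ⟨q, hqD, hqp⟩ := hq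
      obtain ⟨x, hx, y, hy, hxy⟩ := hcut p K ((X \ K).erase p) (by
          ext z
          rw [mem_insert, mem_union, mem_erase, mem_sdiff]
          constructor
          · intro hz
            tauto
          · rintro (rfl | h | h)
            · exact hDX hp
            · exact hKX h
            · exact h.2.1) (fun h => hKD p h hp) (by simp)
          (by
            rw [disjoint_left]
            intro z hz hz'
            rw [mem_erase, mem_sdiff] at hz'
            exact hz'.2.2 hz) ⟨k, hkK⟩ ⟨q, by
            rw [mem_erase, mem_sdiff]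
            exact ⟨hqp, hDX hqD, fun h => hKD q h hqD⟩⟩
      rw [mem_erase, mem_sdiff] at hy
      by_cases hyD : y ∈ D
      · exact hcon y hyD hy.1 x hx (hs _ _ hxy)
      · exact hcl x hx y (mem_sdiff.mpr ⟨hy.2.1, hyD⟩) hy.2.2 hxy
    obtain ⟨p, hp, -, k₁, hk1, hpk⟩ := step1 a ((hmD a).mpr (by simp))
    obtain ⟨q, hq, hqp, k₂, hk2, hqk⟩ := step1 p hp
    have hkk : ∀ d ∈ D, ∀ e ∈ D, d ≠ e → ∀ x ∈ K, ∀ y ∈ K, R d x → R e y → x = y := by
      intro d hd e he hde x hx y hy h1 h2
      obtain ⟨S, hSK, hS⟩ := Pth.of_con hKc hx hy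
      exact hmainLO S d e x y (hSK.trans hKY) hd he hde hS h1 h2
    have h12 := hkk p hp q hq hqp.symm k₁ hk1 k₂ hk2 hpk hqk
    subst h12
    have hall : ∀ d ∈ D, ∀ x ∈ K, R d x → x = k₁ := by
      intro d hd x hx hdx
      by_cases hdp : d = p
      · subst hdp
        exact hkk d hd q hq hqp.symm x hx k₁ hk1 hdx hqk
      · exact hkk d hd p hp hdp x hx k₁ hk1 hdx hpk
    have hKe : ∀ x ∈ K, x = k₁ := by
      by_contra hcon
      push Not at hcon
      obtain ⟨z, hz, hzk⟩ := hcon
      obtain ⟨x, hx, y, hy, hxy⟩ := hcut k₁ (K.erase k₁) (X \ K) (by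
          ext z
          rw [mem_insert, mem_union, mem_erase, mem_sdiff]
          constructor
          · intro hz
            tauto
          · rintro (rfl | h | h)
            · exact hKX hk1
            · exact hKX h.2
            · exact h.1) (by simp) (by
            rw [mem_sdiff]
            exact fun h => h.2 hk1)
          (by
            rw [disjoint_left]
            intro z hz hz'
            rw [mem_erase] at hz
            rw [mem_sdiff] at hz'
            exact hz'.2 hz.2) ⟨z, mem_erase.mpr ⟨hzk, hz⟩⟩ ⟨p, by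
            rw [mem_sdiff]
            exact ⟨hDX hp, fun h => hKD p h hp⟩⟩
      rw [mem_erase] at hx
      rw [mem_sdiff] at hy
      by_cases hyD : y ∈ D
      · exact hx.1 (hall y hyD x hx.2 (hs _ _ hxy))
      · exact hcl x hx.2 y (mem_sdiff.mpr ⟨hy.1, hyD⟩) hy.2 hxy
    have hkk1 : k = k₁ := hKe k hkK
    subst hkk1
    refine ⟨?_, p, hp, q, hq, hqp.symm, hpk, hqk⟩
    intro y hy hky
    by_cases hyK : y ∈ K
    · have := hKe y hyK
      subst this
      exact hi _ hky
    · exact hcl k hkK y hy hyK hky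
  -- five-cycles
  have hfive : ∀ p ∈ D, ∀ q ∈ D, ∀ s ∈ D, p ≠ q → q ≠ s → p ≠ s → ∀ t ∈ X \ D, ∀ t' ∈ X \ D,
      t ≠ t' → R p t → R q t → R q t' → R s t' → False := by
    intro p hp q hq s hsD hpq hqs hps t ht t' ht' htt h1 h2 h3 h4
    rw [mem_sdiff] at ht ht'
    have n1 : ∀ d ∈ D, d ≠ t := fun d hd h => ht.2 (h ▸ hd)
    have n2 : ∀ d ∈ D, d ≠ t' := fun d hd h => ht'.2 (h ▸ hd)
    have Q0 : Pth R {s} s s := .one s
    have m1 : t' ∉ ({s} : Finset V) := by
      rw [mem_singleton]
      exact (n2 s hsD).symm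
    have Q1 : Pth R (insert t' {s}) t' s := .cons (hs _ _ h4) m1 Q0
    have m2 : q ∉ (insert t' {s} : Finset V) := by
      rw [mem_insert, mem_singleton]
      rintro (h | h)
      · exact n2 q hq h
      · exact hqs h
    have Q2 : Pth R (insert q (insert t' {s})) q s := .cons h3 m2 Q1
    have m3 : t ∉ (insert q (insert t' {s}) : Finset V) := by
      rw [mem_insert, mem_insert, mem_singleton]
      rintro (h | h | h)
      · exact n1 q hq h.symm
      · exact htt h
      · exact n1 s hsD h.symm
    have Q3 : Pth R (insert t (insert q (insert t' {s}))) t s := .cons (hs _ _ h2) m3 Q2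
    have m4 : p ∉ (insert t (insert q (insert t' {s})) : Finset V) := by
      rw [mem_insert, mem_insert, mem_insert, mem_singleton]
      rintro (h | h | h | h)
      · exact n1 p hp h
      · exact hpq h
      · exact n2 p hp h
      · exact hps h
    have Q4 : Pth R (insert p (insert t (insert q (insert t' {s})))) p s := .cons h1 m4 Q3
    have hc5 : (insert p (insert t (insert q (insert t' {s}))) : Finset V).card = 5 := by
      rw [card_insert_of_notMem m4, card_insert_of_notMem m3, card_insert_of_notMem m2,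
        card_insert_of_notMem m1, card_singleton]
    refine hLO _ ?_ ⟨?_, hc5.ge, p, s, Q4, hDR _ hsD _ hp hps.symm⟩
    · intro z hz
      simp only [mem_insert, mem_singleton] at hz
      rcases hz with rfl | rfl | rfl | rfl | rfl
      · exact hDX hp
      · exact ht.1
      · exact hDX hq
      · exact ht'.1
      · exact hDX hsD
    · rw [hc5]
      decide
  -- two vertices outside `D`
  have hDc : D.card ≤ 3 := by
    rw [hD]
    exact card_le_three
  have hXD : 2 ≤ (X \ D).card := by
    have := Finset.card_sdiff_add_card_eq_card hDX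
    omega
  obtain ⟨t₀, ht0, t₁, ht1, h01⟩ := Finset.one_lt_card.mp hXD
  obtain ⟨-, p, hp, q, hq, hpq, hpt, hqt⟩ := hout t₀ ht0
  obtain ⟨s, hsD, hsp, hsq, hD3'⟩ := hD3 p hp q hq hpq
  -- nobody else is adjacent to `s`
  have hns : ∀ t ∈ X \ D, t ≠ t₀ → ¬ R s t ∧ R p t ∧ R q t := by
    intro t ht htn
    obtain ⟨-, u, hu, v, hv, huv, hut, hvt⟩ := hout t ht
    have nsp : ¬ (R s t ∧ R p t) := fun h =>
      hfive q hq p hp s hsD hpq.symm hsp.symm hsq.symm t₀ ht0 t ht htn.symm hqt hpt h.2 h.1
    have nsq : ¬ (R s t ∧ R q t) := fun h =>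
      hfive p hp q hq s hsD hpq hsq.symm hsp.symm t₀ ht0 t ht htn.symm hpt hqt h.2 h.1
    have hns' : ¬ R s t := by
      intro h
      rcases hD3' u hu with rfl | rfl | rfl
      · exact nsp ⟨h, hut⟩
      · exact nsq ⟨h, hut⟩
      · rcases hD3' v hv with rfl | rfl | rfl
        · exact nsp ⟨h, hvt⟩
        · exact nsq ⟨h, hvt⟩
        · exact huv rfl
    refine ⟨hns', ?_, ?_⟩
    · rcases hD3' u hu with rfl | rfl | rfl
      · exact hut
      · rcases hD3' v hv with rfl | rfl | rfl
        · exact hvt
        · exact absurd rfl huv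
        · exact absurd hvt hns'
      · exact absurd hut hns'
    · rcases hD3' u hu with rfl | rfl | rfl
      · rcases hD3' v hv with rfl | rfl | rfl
        · exact absurd rfl huv
        · exact hvt
        · exact absurd hvt hns'
      · exact hut
      · exact absurd hut hns'
  have hns0 : ¬ R s t₀ := by
    intro h
    obtain ⟨-, k1, k2⟩ := hns t₁ ht1 h01.symm
    exact hfive s hsD p hp q hq hsp hpq hsq t₀ ht0 t₁ ht1 h01 h hpt k1 k2
  have hnsall : ∀ t ∈ X \ D, ¬ R s t := by
    intro t ht
    by_cases h : t = t₀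
    · rw [h]
      exact hns0
    · exact (hns t ht h).1
  refine ⟨X \ {p, q}, sdiff_subset, ?_, ?_⟩
  · rw [sdiff_sdiff_right_self]
    have : X ⊓ {p, q} = ({p, q} : Finset V) := by
      apply inf_eq_right.mpr
      intro z hz
      rw [mem_insert, mem_singleton] at hz
      rcases hz with rfl | rfl
      · exact hDX hp
      · exact hDX hq
    rw [this, card_pair hpq]
  · intro x hx y hy hxy
    have hcase : ∀ z ∈ X \ ({p, q} : Finset V), z = s ∨ z ∈ X \ D := by
      intro z hz
      rw [mem_sdiff, mem_insert, mem_singleton] at hz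
      by_cases hzD : z ∈ D
      · rcases hD3' z hzD with h | h | h
        · exact absurd (Or.inl h) hz.2
        · exact absurd (Or.inr h) hz.2
        · exact Or.inl h
      · exact Or.inr (mem_sdiff.mpr ⟨hz.1, hzD⟩)
    rcases hcase x hx with rfl | hx'
    · rcases hcase y hy with rfl | hy'
      · exact hi _ hxy
      · exact hnsall y hy' hxy
    · rcases hcase y hy with rfl | hy'
      · exact hnsall x hx' (hs _ _ hxy)
      · exact (hout x hx').1 y hy' hxy

end Pool.Agent.Helper12.RL
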